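import Pool.Agent.N375.AV.F
import Pool.Agent.Results.MP_f2148a_nt.AlmostAllK
import Pool.Agent.Results.MP_f2148a_nt.SparseViolations

/-!
# Hall's conjecture up to exponential heights for `k` near the values of additive functions and of their compositions

Let `f_1, ..., f_r` be functions dominated by the largest prime factor, for example additive functions with
`f (q ^ j) ≤ C q ^ j` that are injective at the large primes (the sum of the prime factors), the largest prime factor or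
Kempner's function, and let `F` be their composition. Let `G` be a real sequence with steps at least a positive constant
and `G v ≤ C v ^ d`. For all `m ≤ N` but `K N exp (- c (log N) ^ (1 / (r + 1)))` NONE of the equations
`y ^ 2 = x ^ 3 + k`, `k ≠ 0`, `||k| - G (F m)| ≤ F(m) ^ κ`, has an integral solution with `|x| ≤ exp (|k| ^ (1 / 10000))`,
if `99 d / 100 + κ < 1`. None of them has an integral solution with `|x| ≤ |k| ^ A` violating Hall's inequality with the
constant `C`, if `d (A / 4 + 1 / 6) + κ < 1`, `A ≥ 2`. The values of `F` are of smaller size than `m` and are taken with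
very large multiplicities, and so this does not follow from the size of the set of the exceptional `k`.

Proof. The starting theorems `AlmostAllK` and `SparseViolations` of this problem give that the exceptional `k` are few, and
the functions `F` keep away from sets with a power saving (tool of helper375).
-/

set_option autoImplicit false

namespace Pool.Agent.Results.MP_f2148a_nt.AdditiveValues

open Finset
open Pool.Agent.N375.AV (PD comp good_int pd_additive pd_largest pd_kempner)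
open Pool.Agent.N733.TG (Expanding expanding_pow)

/-- the equation `y ^ 2 = x ^ 3 + k` has no integral solution with `|x| ≤ exp (|k| ^ (1 / 10000))` -/
def NoPoint (k : ℤ) : Prop :=
  ¬ ∃ x y : ℤ, y ^ 2 = x ^ 3 + k ∧ |(x : ℝ)| ≤ Real.exp (|(k : ℝ)| ^ ((1 : ℝ) / 10000))

/-- Hall's inequality with the constant `C` for the integral solutions of `y ^ 2 = x ^ 3 + k` with `|x| ≤ |k| ^ A` -/
def HallUpTo (C A : ℝ) (k : ℤ) : Prop :=
  ∀ x y : ℤ, y ^ 2 = x ^ 3 + k → |(x : ℝ)| ≤ |(k : ℝ)| ^ A → max |(x : ℝ)| |(y : ℝ)| ≤ C * |(k : ℝ)| ^ 3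

theorem fin_aux (X : ℕ) (P : ℤ → Prop) : {k : ℤ | k ≠ 0 ∧ |(k : ℝ)| ≤ X ∧ P k}.Finite := by
  apply (Set.finite_Icc (-(X : ℤ)) X).subset
  intro k hk
  have := hk.2.1
  rw [← Int.cast_abs] at this
  exact abs_le.1 (by exact_mod_cast this)

/-- **Mordell's equation near the values of additive functions and of their compositions.** -/
theorem result :
    (∀ fs : List (ℕ → ℕ), (∀ f ∈ fs, PD f) → ∀ (G : ℕ → ℝ) (d κ : ℝ), Expanding G d → 0 ≤ κ →
      (d * (99 / 100) + κ < 1 → ∃ c K : ℝ, 0 < c ∧ ∀ N : ℕ, 1 ≤ N →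
        ({m : ℕ | 1 ≤ m ∧ m ≤ N ∧ ¬ ∀ k : ℤ, k ≠ 0 → |(|k| : ℝ) - G (comp fs m)| ≤ (comp fs m : ℝ) ^ κ →
          NoPoint k}.ncard : ℝ) ≤ K * N * Real.exp (-(c * Real.log N ^ ((1 : ℝ) / (fs.length + 1))))) ∧
      (∀ C A : ℝ, 0 < C → 2 ≤ A → d * (A / 4 + 1 / 6) + κ < 1 → ∃ c K : ℝ, 0 < c ∧ ∀ N : ℕ, 1 ≤ N →
        ({m : ℕ | 1 ≤ m ∧ m ≤ N ∧ ¬ ∀ k : ℤ, k ≠ 0 → |(|k| : ℝ) - G (comp fs m)| ≤ (comp fs m : ℝ) ^ κ →
          HallUpTo C A k}.ncard : ℝ) ≤ K * N * Real.exp (-(c * Real.log N ^ ((1 : ℝ) / (fs.length + 1)))))) ∧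
    (∀ f : ℕ → ℕ, (∀ a b : ℕ, Nat.Coprime a b → f (a * b) = f a + f b) →
      (∃ C : ℕ, ∀ q j : ℕ, q.Prime → 1 ≤ j → f (q ^ j) ≤ C * q ^ j) →
      (∃ P : ℕ, ∀ p q : ℕ, p.Prime → q.Prime → P ≤ p → P ≤ q → f p = f q → p = q) → PD f) ∧
    PD (fun n => n.primeFactors.sup id) ∧ PD (fun n => sInf {k : ℕ | n ∣ k.factorial}) ∧
    (∀ α d : ℝ, 0 < α → 1 ≤ d → Expanding (fun v => α * (v : ℝ) ^ d) d) := by
  refine ⟨fun fs hfs G d κ hG hκ => ⟨fun h1 => ?_, fun C A hC hA h1 => ?_⟩,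
    fun f hadd hgrowth hinj => pd_additive hadd hgrowth hinj, pd_largest, pd_kempner, fun α d hα hd => expanding_pow hα hd⟩
  · refine good_int NoPoint fs hfs hG (s := 99 / 100) (by norm_num) hκ h1 (fun ε hε => ?_)
    obtain ⟨K, hK⟩ := Pool.Agent.Results.MP_f2148a_nt.AlmostAllK.result
    refine ⟨K, fun X hX => ?_⟩
    have hX1 : (1 : ℝ) ≤ X := by exact_mod_cast hX
    have hK0 : 0 ≤ K := by
      have := hK 1 le_rfl
      rw [Real.one_rpow, Real.one_rpow, mul_one] at this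
      exact le_trans (Nat.cast_nonneg _) this
    refine le_trans ?_ ((hK X hX1).trans (mul_le_mul_of_nonneg_left
      (Real.rpow_le_rpow_of_exponent_le hX1 (by linarith)) hK0))
    have : {b : ℤ | b ≠ 0 ∧ |b| ≤ (X : ℤ) ∧ ¬ NoPoint b} ⊆
        {k : ℤ | k ≠ 0 ∧ |(k : ℝ)| ≤ X ∧ ∃ x y : ℤ, y ^ 2 = x ^ 3 + k ∧
        |(x : ℝ)| ≤ Real.exp ((X : ℝ) ^ ((1 : ℝ) / 10000))} := by
      rintro k ⟨h3, h4, h2⟩
      have h5 : |(k : ℝ)| ≤ X := by
        rw [← Int.cast_abs]
        exact_mod_cast h4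
      unfold NoPoint at h2
      rw [not_not] at h2
      obtain ⟨x, y, e1, e2⟩ := h2
      refine ⟨h3, h5, x, y, e1, e2.trans (Real.exp_le_exp.2 ?_)⟩
      exact Real.rpow_le_rpow (abs_nonneg _) h5 (by norm_num)
    exact_mod_cast Set.ncard_le_ncard this (fin_aux X _)
  · refine good_int (HallUpTo C A) fs hfs hG (s := A / 4 + 1 / 6) (by linarith) hκ h1 (fun ε hε => ?_)
    obtain ⟨M, hM⟩ := Pool.Agent.Results.MP_f2148a_nt.SparseViolations.result C A ε hC hA hε
    refine ⟨M, fun X hX => ?_⟩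
    have hX1 : (1 : ℝ) ≤ X := by exact_mod_cast hX
    refine le_trans ?_ (hM X hX1)
    have : {b : ℤ | b ≠ 0 ∧ |b| ≤ (X : ℤ) ∧ ¬ HallUpTo C A b} ⊆
        {k : ℤ | k ≠ 0 ∧ |(k : ℝ)| ≤ X ∧ ∃ x y : ℤ, y ^ 2 = x ^ 3 + k ∧
        C * |(k : ℝ)| ^ 3 < max |(x : ℝ)| |(y : ℝ)| ∧ |(x : ℝ)| ≤ (X : ℝ) ^ A} := by
      rintro k ⟨h3, h4, h2⟩
      have h5 : |(k : ℝ)| ≤ X := by
        rw [← Int.cast_abs]
        exact_mod_cast h4
      unfold HallUpTo at h2
      push Not at h2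
      obtain ⟨x, y, e1, e2, e3⟩ := h2
      exact ⟨h3, h5, x, y, e1, e3, e2.trans (Real.rpow_le_rpow (abs_nonneg _) h5 (by linarith))⟩
    exact_mod_cast Set.ncard_le_ncard this (fin_aux X _)

end Pool.Agent.Results.MP_f2148a_nt.AdditiveValues
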