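import Pool.Agent.N656.MH.Mom
import Pool.Agent.N706.MH.Cas
import Pool.Agent.N706.MH.Zero
import Pool.Agent.N865.MH.Log
import Pool.Agent.N277.MH.HALL
import Pool.Agent.N277.MH.GEN
import Pool.Agent.N656.MD.Low
import Pool.Agent.N67.MD.UP
import Pool.Agent.N695.MD.VUP
import Pool.Agent.N391.MD.Vlow
import Pool.Agent.N849.MD.Hal

/-!
# Hall's conjecture for the coefficients: measure and dimension

For `y ^ 2 = lam x ^ 3 + k` with a real coefficient `lam > 0` we determine the size of the set of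
coefficients for which the inequality `max (x, y) ≤ C |k| ^ κ` fails for every `C`: for `κ ≤ 3` it
contains almost every `lam > 0`, and for `κ ≥ 3` it has Hausdorff dimension `5 κ / (6 κ - 3)` in
every interval.
-/

set_option autoImplicit false

namespace Pool.Agent.Results.MP_f2148a_nt.MetricTheory

open Filter MeasureTheory Set Pool.Agent.N656.MH

/-- `liminf n ‖β n ^ α‖ = 0` for almost every `β` -/
theorem io_ae {α : ℝ} (hα : 1 ≤ α) : ∀ᵐ β : ℝ, Io α β := by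
  refine Pool.Agent.N706.MH.zero α hα ?_
  intro h0
  refine pos α hα ?_
  have hc := Pool.Agent.N706.MH.cas α hα
  rw [ae_iff] at hc
  refine measure_mono_null ?_ (measure_union_null hc h0)
  rintro β ⟨⟨h1, _⟩, hβ⟩
  by_cases hio : Io α β
  · exact Or.inr ⟨by linarith, hio⟩
  · refine Or.inl ?_
    intro h
    exact hio (h hβ)

/-- both bounds for the sets of `β` -/
theorem dim_W {α : ℝ} (hα : 1 ≤ α) {τ : ℝ} (hτ : 1 ≤ τ) {a b : ℝ} (hab : a < b) :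
    dimH (Pool.Agent.N656.MD.W α τ ∩ Icc a b) = ENNReal.ofReal ((1 + α) / (τ + α)) :=
  le_antisymm
    ((dimH_mono inter_subset_left).trans
      (Pool.Agent.N67.MD.t_UP α τ (by linarith) (by linarith)))
    (Pool.Agent.N656.MD.low α hα (io_ae hα) τ hτ a b hab)

theorem one_le_div {p q : ℕ} (hq : 1 ≤ q) (hqp : q ≤ p) : (1 : ℝ) ≤ (p : ℝ) / q := by
  have hq0 : (0 : ℝ) < q := by exact_mod_cast hq
  rw [le_div_iff₀ hq0, one_mul]
  exact_mod_cast hqp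

/-- the upper bound for the sets of `lam` -/
theorem up_V {p q : ℕ} (hq : 1 ≤ q) (hqp : q ≤ p) {τ : ℝ} (hτ : 0 < τ) {a b : ℝ} (ha : 0 < a) :
    dimH (Pool.Agent.N656.MD.V p q τ ∩ Icc a b) ≤
      ENNReal.ofReal (((p : ℝ) + q) / (q * τ + p)) :=
  Pool.Agent.N695.MD.t_VUP p q hq hqp
    (fun τ hτ => Pool.Agent.N67.MD.t_UP _ τ (by linarith [one_le_div hq hqp]) hτ) τ hτ a b ha

/-- the lower bound for the sets of `lam` -/
theorem low_V {p q : ℕ} (hq : 1 ≤ q) (hqp : q ≤ p) {τ : ℝ} (hτ : 1 ≤ τ) {a b : ℝ} (ha : 0 < a)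
    (hab : a < b) : ENNReal.ofReal (((p : ℝ) + q) / (q * τ + p)) ≤
      dimH (Pool.Agent.N656.MD.V p q τ ∩ Icc a b) :=
  Pool.Agent.N391.MD.vlow p q hq hqp
    (fun τ hτ a b hab => Pool.Agent.N656.MD.low _ (one_le_div hq hqp)
      (io_ae (one_le_div hq hqp)) τ hτ a b hab) τ hτ a b ha hab

theorem result :
    -- Mordell's equation with a real coefficient: the exponent 3, up to logarithms
    (∀ᵐ lam : ℝ, 0 < lam →
      (∀ C : ℝ, ∃ᶠ x : ℕ in atTop, ∃ y : ℕ,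
        (y : ℝ) ^ 2 - lam * (x : ℝ) ^ 3 ≠ 0 ∧
          C * |(y : ℝ) ^ 2 - lam * (x : ℝ) ^ 3| ^ 3 < max (x : ℝ) (y : ℝ)) ∧
      (∀ ε : ℝ, 0 < ε → ∃ C : ℝ, 0 < C ∧ ∀ x y : ℤ, (x ≠ 0 ∨ y ≠ 0) →
        max |(x : ℝ)| |(y : ℝ)| ≤ C * |(y : ℝ) ^ 2 - lam * (x : ℝ) ^ 3| ^ 3 *
          (Real.log (2 + |(y : ℝ) ^ 2 - lam * (x : ℝ) ^ 3|)) ^ (3 + ε))) ∧
    -- the exponents `κ ≥ 3`
    (∀ κ : ℝ, 3 ≤ κ → ∀ a b : ℝ, 0 < a → a < b →
      dimH ({lam : ℝ | ∀ C : ℝ, ∃ᶠ x : ℕ in atTop, ∃ y : ℕ,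
        (y : ℝ) ^ 2 - lam * (x : ℝ) ^ 3 ≠ 0 ∧
          C * |(y : ℝ) ^ 2 - lam * (x : ℝ) ^ 3| ^ κ < max (x : ℝ) (y : ℝ)} ∩ Icc a b) =
        ENNReal.ofReal (5 * κ / (6 * κ - 3))) ∧
    -- the general equation `y ^ q = lam x ^ p + k`, `p ≥ q`
    (∀ p q : ℕ, 1 ≤ q → q ≤ p →
      (∀ᵐ lam : ℝ, 0 < lam →
        (∀ c : ℝ, 0 < c → ∃ᶠ x : ℕ in atTop, ∃ y : ℕ,
          |(y : ℝ) ^ q - lam * (x : ℝ) ^ p| < c * (x : ℝ) ^ ((p : ℝ) - p / q - 1)) ∧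
        (∀ ε : ℝ, 0 < ε → ∀ᶠ x : ℕ in atTop, ∀ y : ℕ,
          (x : ℝ) ^ ((p : ℝ) - p / q - 1) / (Real.log x) ^ (1 + ε) ≤
            |(y : ℝ) ^ q - lam * (x : ℝ) ^ p|)) ∧
      (∀ τ : ℝ, 1 ≤ τ → ∀ a b : ℝ, 0 < a → a < b →
        dimH ({lam : ℝ | ∃ᶠ x : ℕ in atTop, ∃ y : ℕ,
          |(y : ℝ) ^ q - lam * (x : ℝ) ^ p| < (x : ℝ) ^ ((p : ℝ) - p / q - τ)} ∩ Icc a b) =
          ENNReal.ofReal (((p : ℝ) + q) / (q * τ + p)))) ∧
    -- the distance of `β n ^ α` to the nearest integer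
    (∀ α : ℝ, 1 ≤ α →
      (∀ᵐ β : ℝ,
        (∀ c : ℝ, 0 < c → ∃ᶠ n : ℕ in atTop,
          (n : ℝ) * |β * (n : ℝ) ^ α - round (β * (n : ℝ) ^ α)| < c) ∧
        (∀ ε : ℝ, 0 < ε → ∀ᶠ n : ℕ in atTop,
          1 / ((n : ℝ) * (Real.log n) ^ (1 + ε)) ≤
            |β * (n : ℝ) ^ α - round (β * (n : ℝ) ^ α)|)) ∧
      (∀ τ : ℝ, 1 ≤ τ → ∀ a b : ℝ, a < b →
        dimH ({β : ℝ | ∃ᶠ n : ℕ in atTop,
          |β * (n : ℝ) ^ α - round (β * (n : ℝ) ^ α)| < (n : ℝ) ^ (-τ)} ∩ Icc a b) =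
          ENNReal.ofReal ((1 + α) / (τ + α)))) := by
  refine ⟨?_, ?_, ?_, ?_⟩
  · exact Pool.Agent.N277.MH.hall (io_ae (by norm_num))
      (Pool.Agent.N865.MH.log (3 / 2) (by norm_num))
  · refine Pool.Agent.N849.MD.hal ?_ ?_
    · intro τ hτ a b ha
      refine (up_V (p := 3) (q := 2) (by norm_num) (by norm_num) hτ ha).trans (le_of_eq ?_)
      congr 1
      push_cast
      norm_num
    · intro τ hτ a b ha hab
      refine (le_of_eq ?_).trans (low_V (p := 3) (q := 2) (by norm_num) (by norm_num) hτ ha hab)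
      congr 1
      push_cast
      norm_num
  · intro p q hq hqp
    have hpq := one_le_div hq hqp
    refine ⟨Pool.Agent.N277.MH.gen p q hq hqp (io_ae hpq) (Pool.Agent.N865.MH.log _ hpq), ?_⟩
    intro τ hτ a b ha hab
    exact le_antisymm (up_V hq hqp (by linarith) ha) (low_V hq hqp hτ ha hab)
  · intro α hα
    refine ⟨?_, fun τ hτ a b hab => dim_W hα hτ hab⟩
    filter_upwards [io_ae hα, Pool.Agent.N865.MH.log α hα] with β h1 h2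
    exact ⟨h1, h2⟩

end Pool.Agent.Results.MP_f2148a_nt.MetricTheory
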