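import Pool.Agent.N733.TG.J
import Pool.Agent.Results.MP_f2148a_nt.AlmostAllK

/-!
# Hall's conjecture up to exponential heights for `k` near the values of multiplicative functions

Let `f` be a positive multiplicative function of at most polynomial growth such that `f p ≤ M p` for the large primes `p`,
with different values at different large primes; for example Euler's function or the sum of the divisors. Let `α > 0` and
`κ < 1 / 100`. For all `m ≤ N` but `N / (log N)^U` NONE of the equations `y ^ 2 = x ^ 3 + k`, `k ≠ 0`, `||k| - α f(m)| ≤ f(m)^κ`, has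
an integral solution with `|x| ≤ exp (|k| ^ (1 / 10000))`. The values of `f` are in general taken with very large
multiplicities, and so this does not follow from the size of the set of the exceptional `k`.

Proof. Write `m = l w` where `l` is composed of the primes `≤ z = N^(1 / J)`, `J` about `log log N`. For most `m` one has
`l ≤ N^η`, and `w` is a product of at most `J` different primes. So `f(w)` is taken at most `(1 + τ)^J` times, `τ` its number of
divisors, which is at most `N^o(1)` on average, even in mean square; and the exceptional set has only `K^(99 / 100)` elements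
up to `K`, by the starting theorem `AlmostAllK` of this problem.
-/

set_option autoImplicit false

namespace Pool.Agent.Results.MP_f2148a_nt.MultiplicativeValues

open Finset
open Pool.Agent.N733.TG (LM lm_totient lm_sigma keep_int)

/-- the equation `y ^ 2 = x ^ 3 + k` has no integral solution with `|x| ≤ exp (|k| ^ (1 / 10000))` -/
def NoPoint (k : ℤ) : Prop :=
  ¬ ∃ x y : ℤ, y ^ 2 = x ^ 3 + k ∧ |(x : ℝ)| ≤ Real.exp (|(k : ℝ)| ^ ((1 : ℝ) / 10000))

/-- **Mordell's equation near the values of multiplicative functions.** Let `f` be multiplicative and positive, of at most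
polynomial growth, with `f p ≤ M p` at the large primes, and injective there. Let `α > 0` and `0 ≤ κ < 1 / 100`. For every
`U` and all large `N`, for all `m ≤ N` but `N / (log N)^U`, none of the equations `y ^ 2 = x ^ 3 + k` with `k ≠ 0` and
`||k| - α f(m)| ≤ f(m)^κ` has an integral solution with `|x| ≤ exp (|k| ^ (1 / 10000))`. Euler's function and the sum of the
divisors are examples of such functions `f`. -/
theorem result :
    (∀ f : ℕ → ℕ, LM f → ∀ α κ : ℝ, 0 < α → 0 ≤ κ → κ < 1 / 100 → ∀ U : ℕ, ∃ N₀ : ℕ, ∀ N : ℕ, N₀ ≤ N →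
      ({m : ℕ | 1 ≤ m ∧ m ≤ N ∧ ¬ ∀ k : ℤ, k ≠ 0 → |(|k| : ℝ) - α * f m| ≤ (f m : ℝ) ^ κ → NoPoint k}.ncard : ℝ) ≤
        N / Real.log N ^ U) ∧
    LM Nat.totient ∧ LM (fun m => ∑ d ∈ m.divisors, d) := by
  refine ⟨fun f hf α κ hα hκ h1 U => ?_, lm_totient, lm_sigma⟩
  obtain ⟨N₀, hN₀⟩ := keep_int hf (s := 99 / 100) (by norm_num) hκ (by linarith) hα U
    (B := {k : ℤ | ¬ NoPoint k}) (fun ε hε => by
      obtain ⟨K, hK⟩ := Pool.Agent.Results.MP_f2148a_nt.AlmostAllK.result
      refine ⟨K, fun X hX => ?_⟩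
      have hX1 : (1 : ℝ) ≤ X := by exact_mod_cast hX
      have hK0 : 0 ≤ K := by
        have := hK 1 le_rfl
        rw [Real.one_rpow, Real.one_rpow, mul_one] at this
        exact le_trans (Nat.cast_nonneg _) this
      refine le_trans ?_ ((hK X hX1).trans (mul_le_mul_of_nonneg_left
        (Real.rpow_le_rpow_of_exponent_le hX1 (by linarith)) hK0))
      have hfin : {k : ℤ | k ≠ 0 ∧ |(k : ℝ)| ≤ X ∧ ∃ x y : ℤ, y ^ 2 = x ^ 3 + k ∧
          |(x : ℝ)| ≤ Real.exp ((X : ℝ) ^ ((1 : ℝ) / 10000))}.Finite := by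
        apply (Set.finite_Icc (-(X : ℤ)) X).subset
        intro k hk
        have := hk.2.1
        rw [← Int.cast_abs] at this
        exact abs_le.1 (by exact_mod_cast this)
      have : {b : ℤ | b ∈ {k : ℤ | ¬ NoPoint k} ∧ b ≠ 0 ∧ |b| ≤ (X : ℤ)} ⊆
          {k : ℤ | k ≠ 0 ∧ |(k : ℝ)| ≤ X ∧ ∃ x y : ℤ, y ^ 2 = x ^ 3 + k ∧
          |(x : ℝ)| ≤ Real.exp ((X : ℝ) ^ ((1 : ℝ) / 10000))} := by
        rintro k ⟨h2, h3, h4⟩
        have h5 : |(k : ℝ)| ≤ X := by
          rw [← Int.cast_abs]
          exact_mod_cast h4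
        unfold NoPoint at h2
        simp only [Set.mem_ofPred_eq, not_not] at h2
        obtain ⟨x, y, e1, e2⟩ := h2
        refine ⟨h3, h5, x, y, e1, e2.trans (Real.exp_le_exp.2 ?_)⟩
        exact Real.rpow_le_rpow (abs_nonneg _) h5 (by norm_num)
      exact_mod_cast Set.ncard_le_ncard this hfin)
  refine ⟨N₀, fun N hN => le_trans (le_of_eq ?_) (hN₀ N hN)⟩
  congr 2
  ext m
  simp only [Set.mem_ofPred_eq]
  constructor
  · rintro ⟨h2, h3, h4⟩
    push Not at h4
    obtain ⟨n, hn, h5, h6⟩ := h4
    exact ⟨h2, h3, n, h6, hn, h5⟩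
  · rintro ⟨h2, h3, n, h6, hn, h5⟩
    exact ⟨h2, h3, fun h => h6 (h n hn h5)⟩

end Pool.Agent.Results.MP_f2148a_nt.MultiplicativeValues
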