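import Pool.Agent.N671.DA.Win
import Pool.Agent.Results.MP_f2148a_nt.AlmostAllK

/-!
# Hall's conjecture up to exponential heights for `k` near functions of the denominators of good approximations

Let `α_1, …, α_m` be real numbers. We consider the natural numbers `q` with `‖q α_j - β_j‖ ≤ c q^(-τ)` for all `j`, `‖x‖` the
distance to the nearest integer; for `β = 0`, `c = 1`, `τ = 1 / m` these include the denominators of all best simultaneous
approximations (the denominators of the convergents for `m = 1`). They form a very sparse sequence, with gaps growing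
exponentially for almost all `α` if `τ = 1 / m`. We show: let `G` be a function with steps bounded below by a positive constant
and growth at most `v^d`, for example `a v^d`. For all `α` in `ℝ^m` outside a set of Hausdorff dimension at most
`(m + (99 / 100) d + κ) / (1 + τ)`, and all `c`, for all but finitely many such `q` NONE of the equations `y ^ 2 = x ^ 3 + k`,
`k ≠ 0`, `||k| - G q| ≤ q^κ`, has an integral solution with `|x| ≤ exp (|k| ^ (1 / 10000))`. For `τ = 1 / m` the bound is less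
than `m` if `(99 / 100) d + κ < 1`; and so the statement holds for almost all `α`, for example for all `k` with
`||k| - a q| ≤ q^(1/200)`, `a > 0`.

Proof. The `q` such that some exceptional `k` is near `G q` (with either sign) form a set with
`O(X^((99 / 100) d + κ + ε))` elements up to `X`, by the starting theorem `AlmostAllK` of this problem; and the `α` with
`‖q α_j - β_j‖ ≤ c q^(-τ)` for all `j` and infinitely many `q` of such a set are covered by few small cubes
(`Pool.Agent.N671.DA`, helper671).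
-/

set_option autoImplicit false

namespace Pool.Agent.Results.MP_f2148a_nt.SimultaneousApproximations

open Finset
open Pool.Agent.N671.DA (Solves Expanding expanding_pow approx_good)

/-- the equation `y ^ 2 = x ^ 3 + k` has no integral solution with `|x| ≤ exp (|k| ^ (1 / 10000))` -/
def NoPoint (k : ℤ) : Prop :=
  ¬ ∃ x y : ℤ, y ^ 2 = x ^ 3 + k ∧ |(x : ℝ)| ≤ Real.exp (|(k : ℝ)| ^ ((1 : ℝ) / 10000))

/-- the number of exceptional `k` -/
lemma count : ∃ K : ℝ, ∀ X : ℝ, 1 ≤ X → {k : ℤ | (k ≠ 0 ∧ ¬ NoPoint k) ∧ |(k : ℝ)| ≤ X}.Finite ∧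
    ({k : ℤ | (k ≠ 0 ∧ ¬ NoPoint k) ∧ |(k : ℝ)| ≤ X}.ncard : ℝ) ≤ K * X ^ ((99 : ℝ) / 100) := by
  obtain ⟨K, hK⟩ := Pool.Agent.Results.MP_f2148a_nt.AlmostAllK.result
  refine ⟨K, fun X hX => ?_⟩
  have hfin : {k : ℤ | k ≠ 0 ∧ |(k : ℝ)| ≤ X ∧ ∃ x y : ℤ, y ^ 2 = x ^ 3 + k ∧
      |(x : ℝ)| ≤ Real.exp (X ^ ((1 : ℝ) / 10000))}.Finite := by
    apply (Set.finite_Icc (-⌊X⌋) ⌊X⌋).subset
    intro k hk
    obtain ⟨h1, h2⟩ := abs_le.1 hk.2.1
    refine ⟨?_, Int.le_floor.2 h2⟩
    have : -k ≤ ⌊X⌋ := Int.le_floor.2 (by push_cast; linarith)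
    linarith
  have hsub : {k : ℤ | (k ≠ 0 ∧ ¬ NoPoint k) ∧ |(k : ℝ)| ≤ X} ⊆
      {k : ℤ | k ≠ 0 ∧ |(k : ℝ)| ≤ X ∧ ∃ x y : ℤ, y ^ 2 = x ^ 3 + k ∧
        |(x : ℝ)| ≤ Real.exp (X ^ ((1 : ℝ) / 10000))} := by
    rintro k ⟨⟨h3, h2⟩, h5⟩
    unfold NoPoint at h2
    push Not at h2
    obtain ⟨x, y, e1, e2⟩ := h2
    exact ⟨h3, h5, x, y, e1, e2.trans (Real.exp_le_exp.2 (Real.rpow_le_rpow (abs_nonneg _) h5 (by norm_num)))⟩
  refine ⟨hfin.subset hsub, le_trans ?_ (hK X hX)⟩
  exact_mod_cast Set.ncard_le_ncard hsub hfin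

/-- **Mordell's equation near the denominators of good approximations.** Let `G` have steps `≥ a > 0` and growth at most
`v^d`. Let `0 ≤ κ ≤ 1`, `β` in `ℝ^m` and `τ > 0`. For all `α` in `ℝ^m` outside a set of Hausdorff dimension at most
`(m + (99 / 100) d + κ) / (1 + τ)` and all `c`, for all large `q` with `‖q α_j - β_j‖ ≤ c q^(-τ)` for all `j`, NONE of the
equations `y ^ 2 = x ^ 3 + k` with `k ≠ 0` and `||k| - G q| ≤ q^κ` has an integral solution with
`|x| ≤ exp (|k| ^ (1 / 10000))`. The functions `a v^d` with `a > 0`, `d ≥ 1` are examples of `G`. -/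
theorem result :
    (∀ (G : ℕ → ℝ) (d : ℝ), Expanding G d → ∀ κ : ℝ, 0 ≤ κ → κ ≤ 1 →
      ∀ (m : ℕ) (β : Fin m → ℝ) (τ : ℝ), 0 < τ →
      ∃ E : Set (Fin m → ℝ), dimH E ≤ ENNReal.ofReal ((m + (d * (99 / 100) + κ)) / (1 + τ)) ∧
        ∀ α, α ∉ E → ∀ c : ℝ, ∃ Q : ℕ, ∀ q : ℕ, Q ≤ q → Solves α β q (c * (q : ℝ) ^ (-τ)) →
          ∀ k : ℤ, k ≠ 0 → |(|k| : ℝ) - G q| ≤ (q : ℝ) ^ κ → NoPoint k) ∧
    ∀ a d : ℝ, 0 < a → 1 ≤ d → Expanding (fun v => a * (v : ℝ) ^ d) d := by
  refine ⟨fun G d hG κ hκ hκ1 m β τ hτ => ?_, fun a d ha hd => expanding_pow ha hd⟩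
  exact approx_good (fun k : ℤ => k ≠ 0) NoPoint (fun k : ℤ => |(k : ℝ)|) hG (s := 99 / 100) (κ := κ) (by norm_num)
    hκ hκ1 (fun ε hε => by
      obtain ⟨K, hK⟩ := count
      have hK0 : 0 ≤ K := by
        have := (hK 1 le_rfl).2
        rw [Real.one_rpow, mul_one] at this
        exact le_trans (Nat.cast_nonneg _) this
      refine ⟨K, fun X hX => ⟨(hK X hX).1, (hK X hX).2.trans ?_⟩⟩
      exact mul_le_mul_of_nonneg_left (Real.rpow_le_rpow_of_exponent_le hX (by linarith)) hK0) β hτ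

end Pool.Agent.Results.MP_f2148a_nt.SimultaneousApproximations
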